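import Pool.Graph.R_seed8.W778.AG.Stmts
import Pool.Graph.R_seed8.W778.AG.Fin
import Pool.Graph.R_seed8.W778.AG.Lap
import Pool.Graph.R_seed8.W778.AG.Pos
import Pool.Graph.R_seed8.W342.AG.Cap2
import Pool.Graph.R_seed8.W342.AG.Pair
import Pool.Graph.R_seed8.W342.AG.Slice
import Pool.Graph.R_seed8.W376.AG.Sum
import Pool.Graph.R_seed8.W646.AG.Const
import Pool.Graph.R_seed8.W646.AG.StepB
import Pool.Graph.R_seed8.W646.AG.Scale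

/-!
# Angles in sets of large dimension (MP_937c79_an, S05431): the remaining statements

The definitions `En`, `dir`, `Pg`, `dk`, `pk`, `LE`, `wf`, `Sph`, `fm`, `Of`, `Gam`, `Wit`,
`HasAngle` and the statements `S_PAR`, `S_LAP`, `S_BD`, `S_SUM`, `S_CONST`, `S_BB`, `S_SLICE`,
`S_CAP`, ... are in `Pool.Graph.R_seed8.W778.AG.Stmts`; already proved there: `S_POS`, `S_PAR`,
`S_LAP`, `S_BD`, `S_SUM`, `S_CAP`, `S_SLICE`, `S_PAIR`, `S_CONST`, `S_MEAN → S_BB`.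
-/

set_option autoImplicit false

open MeasureTheory Metric Set Filter Topology
open scoped ENNReal RealInnerProductSpace

namespace Pool.Agent.H380.AG

open Pool.Agent.W778.AG

/-- bilinear product of a real and a complex vector -/
noncomputable def cd {n : ℕ} (x : En n) (z : Fin n → ℂ) : ℂ := ∑ i, (x i : ℂ) * z i

/-- the complex quadratic form -/
noncomputable def qf {n : ℕ} (z : Fin n → ℂ) : ℂ := ∑ i, z i ^ 2

/-- moments of the cosine with the weight `sin ^ (n - 3)` -/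
noncomputable def mom (n j : ℕ) : ℝ := LE n (fun φ => Real.cos φ ^ j)

/-- complex mean value with the weight `sin ^ (n - 3)` -/
noncomputable def LC (n : ℕ) (f : ℝ → ℂ) : ℂ :=
  (∫ φ in (0 : ℝ)..Real.pi, f φ * ((Real.sin φ ^ (n - 3) : ℝ) : ℂ)) /
    ((∫ φ in (0 : ℝ)..Real.pi, Real.sin φ ^ (n - 3) : ℝ) : ℂ)

/-- `σ` has the moments of the uniform measure of the unit sphere of `ℝ^n` -/
def Uni (n : ℕ) (σ : Measure (En n)) : Prop :=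
  Sph σ ∧ ∀ (j : ℕ) (u : En n), ∫ b, ⟪b, u⟫ ^ j ∂σ = ‖u‖ ^ j * mom (n + 1) j

/-- `σ` has the moments of the uniform measure of the unit sphere of `v^⊥` -/
def Perp (n : ℕ) (v : En n) (σ : Measure (En n)) : Prop :=
  Sph σ ∧ σ {b | ⟪b, v⟫ ≠ 0} = 0 ∧
    ∀ (j : ℕ) (u : En n), ⟪u, v⟫ = 0 → ∫ b, ⟪b, u⟫ ^ j ∂σ = ‖u‖ ^ j * mom n j

/-- **Task MOM.** Proof: odd moments vanish by `φ ↦ π - φ`; `mom n 0 = 1` as
`∫ sin^(n-3) > 0` (`integral_sin_pow_pos`); the recursion by integration by parts: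
`I(j+2) = ∫ cos^(j+1) (sin^(n-2)/(n-2))' = (j+1)/(n-2) ∫ cos^j sin^(n-1) =
(j+1)/(n-2) (I(j) - I(j+2))`. -/
def S_MOM : Prop := ∀ n : ℕ, 3 ≤ n → (∀ j, Odd j → mom n j = 0) ∧ (∀ j, 0 < mom n (2 * j)) ∧
  mom n 0 = 1 ∧ ∀ j : ℕ, mom n (j + 2) = ((j : ℝ) + 1) / ((n : ℝ) + j - 1) * mom n j

/-- **Task POL.** The normalised surface measure of the unit sphere of `ℝ^n`, `n ≥ 2`.
Proof: `σ` is the normalised `(volume : Measure (En n)).toSphere` mapped to `En n`; the product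
formula is `MeasureTheory.Measure.measurePreserving_homeomorphUnitSphereProd` (first `F`, `g`
indicator-free: both sides equal `(∫ F d toSphere) * ∫_0^∞ r^(n-1) g(r) dr`).
Moments: apply the product formula (for integrals) to `z ↦ ⟪z, u⟫ ^ j * exp(-‖z‖^2/2)`, which is
`⟪dir z, u⟫^j * (‖z‖^j exp(-‖z‖^2/2))`: hence
`∫ ⟪b,u⟫^j dσ * W j = ∫ ⟪z,u⟫^j exp(-‖z‖^2/2) dz` with `W j = ∫ ‖z‖^j exp(-‖z‖^2/2) dz`. The right
side is `‖u‖^j * G j * (G 0)^(n-1)`, `G j = ∫_ℝ t^j exp(-t^2/2) dt` (rotate `u` to `‖u‖ e_0` by a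
linear isometry, then Fubini), `G (j+2) = (j+1) G j`, `W (j+2) = (n+j) W j` and `W 0 = (G 0)^n`
(polar coordinates or Gamma functions), odd `G j = 0`. So the moments satisfy the same recursion
`M(j+2) = (j+1)/(n+j) M(j)` as `mom (n+1) j` (Task MOM, may be used as hypothesis). Any other
proof is fine. -/
def S_POLAR : Prop := ∀ n : ℕ, 2 ≤ n → ∃ σ : Measure (En n), Uni n σ ∧
  ∀ (F : En n → ℝ≥0∞) (g : ℝ → ℝ≥0∞), Measurable F → Measurable g →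
    ∫⁻ z : En n, F (dir z) * g ‖z‖ = (∫⁻ u, F u ∂σ) * ∫⁻ z : En n, g ‖z‖

/-- **Task PERP.** From `S_POLAR` in dimension `n - 1 ≥ 2`: push the measure forward under a linear
isometry `En (n-1) → En n` with image `v^⊥` (`stdOrthonormalBasis` of `(ℝ ∙ v)ᗮ`). -/
def S_PERP : Prop := ∀ n : ℕ, 3 ≤ n → ∀ v : En n, ‖v‖ = 1 → ∃ σ : Measure (En n), Perp n v σ

/-- **Task CXM.** Complexification of moment formulas. Proof: for even `j = 2l` both sides of the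
hypothesis are polynomials in `t` (`∫ (⟪b,p⟫ + t ⟪b,q⟫)^j`, expand with `add_pow`; right side
`m j (‖p‖^2 + 2 t ⟪p,q⟫ + t^2 ‖q‖^2)^l`) which agree for all real `t`, hence as polynomials, hence at
`t = i`. For odd `j` all coefficients vanish. -/
def S_CXM : Prop := ∀ (n : ℕ) (σ : Measure (En n)) (p q : En n) (m : ℕ → ℝ), Sph σ →
  (∀ (t : ℝ) (j : ℕ), ∫ b, ⟪b, p + t • q⟫ ^ j ∂σ = ‖p + t • q‖ ^ j * m j) →
  (∀ j, Odd j → m j = 0) → ∀ l : ℕ,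
    (∫ b, ((⟪b, p⟫ : ℝ) + Complex.I * (⟪b, q⟫ : ℝ) : ℂ) ^ (2 * l) ∂σ =
      (m (2 * l) : ℂ) * (((‖p‖ ^ 2 - ‖q‖ ^ 2 : ℝ) : ℂ) + 2 * Complex.I * (⟪p, q⟫ : ℝ)) ^ l) ∧
    ∫ b, ((⟪b, p⟫ : ℝ) + Complex.I * (⟪b, q⟫ : ℝ) : ℂ) ^ (2 * l + 1) ∂σ = 0

/-- **Task ISO.** From `S_CXM`, `S_MOM`. Proof: put `c = cd v z`, `z'' = z - c v`; then
`cd v z'' = 0`, `qf z'' = qf z - c^2 = - c^2`, `cd b z = cd b z''` for `b ⊥ v` (a.e.). With `p`, `q`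
the real and imaginary parts of `z''` (both orthogonal to `v`) `S_CXM` (`m = mom n`) gives
`∫ (cd b z)^j = mom n j * (I c)^j` for all `j` (both sides `0` for odd `j`). Expand the power:
`∑_j C(k,j) (A c)^(k-j) B^j mom_j (I c)^j = c^k LC n ((A + I B cos φ)^k)`. -/
def S_ISO : Prop := ∀ n : ℕ, 3 ≤ n → ∀ (v : En n) (σ : Measure (En n)), ‖v‖ = 1 → Perp n v σ →
  ∀ (k : ℕ) (A B : ℂ) (z : Fin n → ℂ), qf z = 0 →
    ∫ b, (A * cd v z + B * cd b z) ^ k ∂σ =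
      cd v z ^ k * LC n (fun φ => (A + Complex.I * B * (Real.cos φ : ℂ)) ^ k)

/-- **Task LV.** Laplace's formula in vector form. From `S_LAP` (`x = cos θ v + x''`,
`‖x''‖ = sin θ`, `θ = arccos ⟪x, v⟫`; expand the power and use the moments
`∫ ⟪b, x''⟫^j = sin^j θ mom n j`). -/
def S_LV : Prop := ∀ n : ℕ, 3 ≤ n → ∀ (v : En n) (σ : Measure (En n)), ‖v‖ = 1 → Perp n v σ →
  ∀ (k : ℕ) (x : En n), ‖x‖ = 1 →
    ((Pg n k ⟪x, v⟫ : ℝ) : ℂ) = ∫ b, ((⟪x, v⟫ : ℝ) + Complex.I * (⟪x, b⟫ : ℝ) : ℂ) ^ k ∂σ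

/-- **Task CM.** Complex moments of the uniform measure. From `S_CXM` and `S_MOM`
(`p`, `q` = real and imaginary part of `z`, `m = mom (n+1)`). -/
def S_CM : Prop := ∀ n : ℕ, 3 ≤ n → ∀ σ : Measure (En n), Uni n σ → ∀ (z : Fin n → ℂ) (j : ℕ),
  (∫ y, cd y z ^ (2 * j) ∂σ = (mom (n + 1) (2 * j) : ℂ) * qf z ^ j) ∧
    ∫ y, cd y z ^ (2 * j + 1) ∂σ = 0

/-- **Task CONV.** Proof. Let `σ_u`, `σ_w` be given by `S_PERP`. By `S_LV`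
`P_k(⟪y,u⟫) = ∫_b (cd y (u+ib))^k dσ_u(b)`, `P_k(⟪y,w⟫) = ∫_c (cd y (w+ic))^k dσ_w(c)`; the vectors
`z = u+ib`, `z' = w+ic` satisfy `qf z = qf z' = 0` (a.e. `b`, `c`). By `S_CM`, for all real (or
complex) `s`, `∫_y (cd y z + s cd y z')^(2k) = M (qf (z + s z'))^k = M (2 s B(z,z'))^k` with
`M = mom (n+1) (2k) > 0`, `B(z,z') = ∑ z_i z'_i`; comparing the coefficients of `s^k`:
`C(2k,k) ∫_y (cd y z)^k (cd y z')^k = M 2^k B(z,z')^k`. Now integrate over `c`: `B(z, w+ic) =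
cd w z + I cd c z`, so by `S_ISO` (`A = 1`, `B = I`, `v = w`)
`∫_c B(z,w+ic)^k dσ_w = (cd w z)^k * LC n ((1 - cos φ)^k)`, and `κ = LE n ((1 - cos φ)^k) > 0`.
Finally `∫_b (cd w (u+ib))^k dσ_u = P_k(⟪w,u⟫)`. So the constant is `M 2^k κ / C(2k,k)`. -/
def S_CONV : Prop := ∀ n : ℕ, 3 ≤ n → ∀ σ : Measure (En n), Uni n σ → ∀ k : ℕ,
  ∃ c : ℝ, 0 < c ∧ ∀ u w : En n, ‖u‖ = 1 → ‖w‖ = 1 →
    ∫ y, Pg n k ⟪u, y⟫ * Pg n k ⟪y, w⟫ ∂σ = c * Pg n k ⟪u, w⟫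

/-- **Task ORTH.** Proof: with `σ_v` from `S_PERP`, `P_k(⟪u,v⟫) = ∫_b (cd u (v+ib))^k dσ_v(b)`
(`S_LV`); Fubini, and `∫_u (cd u z)^k dσ(u) = 0` for `k ≥ 1` by `S_CM` as `qf (v+ib) = 0`. -/
def S_ORTH : Prop := ∀ n : ℕ, 3 ≤ n → ∀ σ : Measure (En n), Uni n σ → ∀ k : ℕ, 1 ≤ k →
  ∀ v : En n, ‖v‖ = 1 → ∫ u, Pg n k ⟪v, u⟫ ∂σ = 0

/-- **Task A1.** Proof. For `‖v‖ = 1` let `ρ_v` be the measure of `S_AVG`. For unit vectors `u`, `v`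
with `⟪u,v⟫ = cos θ`, `K_r(u,v) := ∑' r^k dk P_k(cos α) P_k(cos θ)` is `∫ pk n r ⟪w,u⟫ dρ_v(w) ≥ 0`
(`S_SUM`, `S_AVG`; interchange of sum and integral by `|Pg| ≤ 1` (`S_BD`) and summability of
`r^k dk`: `S_SUM` at `t = 1`, `Pg n k 1 = 1`) and at most
`(1-r^2)/sqrt(1-2r cos(θ-α)+r^2)^n` by `S_CONC`. By compactness of `F × F'` there is
`η ∈ (0, π/2]` with `|θ - α| ≥ η` on `F × F'`, and `1 - 2 r cos(θ-α) + r^2 ≥ sin^2 η`. Hence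
`0 ≤ ∫∫ K_r dμ' dμ ≤ (1-r^2)/(sin η)^n → 0`, and `∫∫ K_r` is the series in question. -/
def S_A1 : Prop := ∀ (n : ℕ) (α : ℝ) (μ μ' : Measure (En n)) (F F' : Set (En n)), 3 ≤ n →
  0 < α → α < Real.pi → Sph μ → Sph μ' → IsCompact F → IsCompact F' →
  F ⊆ sphere (0 : En n) 1 → F' ⊆ sphere (0 : En n) 1 → μ Fᶜ = 0 → μ' F'ᶜ = 0 →
  (∀ u ∈ F, ∀ v ∈ F', ⟪u, v⟫ ≠ Real.cos α) →
  Tendsto (fun r : ℝ => ∑' k : ℕ, r ^ k * dk n k * (Pg n k (Real.cos α) * fm n k μ μ'))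
    (𝓝[<] 1) (𝓝 0)

/-- **Task A2.** Proof. Write `f_k(i,j) = fm n k (μ i) (μ j)`; it is symmetric, `|f_k| ≤ 1`, and by
`S_PSD` (for sub-families, or with `a` supported on two indices) `f_k(i,i) ≥ 0`,
`∑_{i,j} f_k(i,j) ≥ 0`, `|f_k(i,j)| ≤ (f_k(i,i)+f_k(j,j))/2`. `k = 0`: the term is
`J(J-1)/2`. Odd `k < 2q`: kept. Even `0 < k < 2q`: `P_k(cos α) ≥ 0` and
`∑_{i<j} f_k(i,j) ≥ -½ ∑_i f_k(i,i)`. `k ≥ 2q`: `|∑_{i<j} f_k(i,j)| ≤ (J/2) ∑_i f_k(i,i)`.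
`|P_k(cos α)| ≤ LE n (wf α ^ k)` (`S_BD`). For `w ∈ (0,1)`:
`∑_k dk w^k f_k(i,i) = ∫∫ pk n w ⟪u,v⟫ dμ_i dμ_i ≤ D_i Γ(w)` (`S_SUM`, interchange by absolute
convergence). Take `w = wf α φ` (in `(0,1)` for `0 < φ < π` as `cos α ≠ 0`, `sin α > 0`),
integrate over `φ` (finite partial sums first, then the supremum): the even terms cost at most
`½ η' ∑ D_i`. For `k ≥ 2q`: `wf^k ≤ wf^q * (sqrt wf)^k`; the tail costs at most `(J/2) η ∑ D_i`. -/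
def S_A2 : Prop := ∀ (n q J : ℕ) (α : ℝ) (Γ : ℝ → ℝ) (η' η : ℝ) (μ : Fin J → Measure (En n))
  (D : Fin J → ℝ) (r : ℝ), 3 ≤ n → 0 < α → α < Real.pi → Real.cos α ≠ 0 →
  (∀ k < 2 * q, Even k → 0 ≤ Pg n k (Real.cos α)) →
  (∀ r ∈ Ioo (0 : ℝ) 1, 0 ≤ Γ r) →
  IntervalIntegrable (fun φ => Γ (wf α φ) * Real.sin φ ^ (n - 3)) volume 0 Real.pi →
  IntervalIntegrable (fun φ => wf α φ ^ q * Γ (Real.sqrt (wf α φ)) * Real.sin φ ^ (n - 3))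
    volume 0 Real.pi →
  LE n (fun φ => Γ (wf α φ)) ≤ η' →
  LE n (fun φ => wf α φ ^ q * Γ (Real.sqrt (wf α φ))) ≤ η →
  (∀ i, Sph (μ i)) → (∀ i, 0 ≤ D i) →
  (∀ i, ∀ r ∈ Ioo (0 : ℝ) 1, ∀ v : En n, ‖v‖ = 1 → ∫ u, pk n r ⟪v, u⟫ ∂(μ i) ≤ D i * Γ r) →
  r ∈ Ioo (0 : ℝ) 1 →
  (J : ℝ) * (J - 1) / 2 - (η' + J * η) / 2 * ∑ i, D i +
    ∑ i, ∑ j ∈ Finset.univ.filter (fun j => i < j),
      ∑ k ∈ (Finset.range (2 * q)).filter (fun k => Odd k),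
        r ^ k * (dk n k * Pg n k (Real.cos α) * fm n k (μ i) (μ j)) ≤
  ∑ i, ∑ j ∈ Finset.univ.filter (fun j => i < j),
    ∑' k : ℕ, r ^ k * dk n k * (Pg n k (Real.cos α) * fm n k (μ i) (μ j))

/-- the kernel of `Of` -/
noncomputable def Ok (n q : ℕ) (α : ℝ) (u v : En n) : ℝ :=
  ∑ k ∈ (Finset.range (2 * q)).filter (fun k => Odd k),
    dk n k * Pg n k (Real.cos α) * Pg n k ⟪u, v⟫

/-- **Task OK.** Elementary properties of the kernel: it is a polynomial in `⟪u,v⟫` with only odd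
powers (`S_PAR`). -/
def S_OK : Prop := ∀ (n q : ℕ) (α : ℝ),
  (Continuous fun p : En n × En n => Ok n q α p.1 p.2) ∧
  (∀ u v : En n, Ok n q α u v = Ok n q α v u) ∧
  (∀ u v : En n, Ok n q α (-u) v = -Ok n q α u v) ∧
  (∃ L : ℝ, 0 < L ∧ ∀ u u' v : En n, ‖u‖ ≤ 1 → ‖u'‖ ≤ 1 → ‖v‖ ≤ 1 →
    |Ok n q α u v - Ok n q α u' v| ≤ L * ‖u - u'‖) ∧
  ∀ μ μ' : Measure (En n), IsProbabilityMeasure μ → IsProbabilityMeasure μ' →
    μ (closedBall 0 1)ᶜ = 0 → μ' (closedBall 0 1)ᶜ = 0 →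
    Of n q α μ μ' = ∫ u, ∫ v, Ok n q α u v ∂μ' ∂μ

/-- **Task FROST.** Frostman's lemma in `ℝ^n`. Generalise `Pool/Agent/H380/DS/Frost.lean`
(the same theorem for compact subsets of `ℝ`, 320 lines, based on the finite Frostman lemma
`Pool.Agent.H380R3.ARW.frostman`, which is already `d`-dimensional) from `ℝ` to `En n`. -/
def S_FROST : Prop := ∀ (n : ℕ) (K : Set (En n)), IsCompact K → ∀ s : ℝ, 0 < s →
  ENNReal.ofReal s < dimH K → ∃ (ν : Measure (En n)) (C : ℝ), IsProbabilityMeasure ν ∧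
    ν Kᶜ = 0 ∧ 0 < C ∧ ∀ (x : En n) (r : ℝ), 0 < r →
      ν (closedBall x r) ≤ ENNReal.ofReal (C * r ^ s)

/-- **Task SB.** A family of pairs of directions with the angle `α` such that both lines satisfy the
small ball bound. Proof. Let `t = (π/2-α)/4` if `α < π/2` and `t = (π-α)/4` otherwise, so that for
`θ ∈ [t,2t]` both `θ` and `θ+α` are in `(0,π)` and stay away from `0`, `π/2`, `π`. Let `P` be the
volume of `En k` restricted to the shell `1 < ‖g‖ < 2`; for `g = ρ ξ` (`ρ = ‖g‖`, `ξ = g/ρ`)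
put `e₁ g = (cos(tρ), sin(tρ) ξ)`, `e₂ g = (cos(tρ+α), sin(tρ+α) ξ)` in `ℝ × ℝ^k = En (k+1)`
(coordinate `0` first). `p_i(w) = w' - (w_0/(e_i)_0) (e_i)'` where `w = (w_0, w')`: the kernel is
`ℝ e_i`, and `w - (w_0/(e_i)_0) e_i = (0, p_i w)`, so the distance of `w` to the line `ℝ e_i` is at
most `‖p_i w‖`. Small balls: the maps `e_i` are lower Lipschitz on the shell,
`‖e_i g - e_i g'‖ ≥ c ‖g - g'‖` (`‖e - e'‖^2 = 4 sin^2((a-a')/2) + sin a sin a' ‖ξ-ξ'‖^2`); if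
`‖w‖ = 1` and `‖p_i(g) w‖ ≤ δ ≤ 1/2` then `e_i(g)` is within `2δ` of `w` or `-w`, so the set of
these `g` is a union of two sets of diameter `≤ 4δ/c`, of volume `≤ C δ^k`. (General `w`: scale.
`δ > ‖w‖/2`: total mass.) -/
def S_SB : Prop := ∀ (k : ℕ) (α : ℝ), 1 ≤ k → 0 < α → α < Real.pi →
  ∃ (P : Measure (En k)) (e₁ e₂ : En k → En (k + 1)) (p₁ p₂ : En k → En (k + 1) →L[ℝ] En k)
    (C : ℝ), P ≠ 0 ∧ SFinite P ∧ 0 < C ∧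
    Measurable (fun z : En k × En (k + 1) => p₁ z.1 z.2) ∧
    Measurable (fun z : En k × En (k + 1) => p₂ z.1 z.2) ∧
    (∀ᵐ o ∂P, ‖e₁ o‖ = 1 ∧ ‖e₂ o‖ = 1 ∧ ⟪e₁ o, e₂ o⟫ = Real.cos α ∧
      (∀ w, p₁ o w = 0 → ∃ c : ℝ, w = c • e₁ o) ∧ ∀ w, p₂ o w = 0 → ∃ c : ℝ, w = c • e₂ o) ∧
    ∀ w : En (k + 1), w ≠ 0 → ∀ δ : ℝ, 0 < δ →
      P {o | ‖p₁ o w‖ ≤ δ} ≤ ENNReal.ofReal (C * (δ / ‖w‖) ^ k) ∧
      P {o | ‖p₂ o w‖ ≤ δ} ≤ ENNReal.ofReal (C * (δ / ‖w‖) ^ k)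

/-- **Task SB2.** A family of `m`-codimensional subspaces and their orthogonal complements with the
small ball bounds. Proof: `n = m + l`, `w = (x, y) ∈ ℝ^l × ℝ^m` (first `l` coordinates, last `m`
coordinates), `Ω` = the `m × l` matrices `A` with entries in `[-1,1]`, Lebesgue measure (e.g.
`Fin m → Fin l → ℝ` with the product of `volume.restrict (Icc (-1) 1)`),
`p₁ A (x,y) = y - A x ∈ ℝ^m`, `p₂ A (x,y) = x + Aᵀ y ∈ ℝ^l`. `p₁ = 0`, `p₂ = 0` means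
`w = (x, A x)`, `w' = (-Aᵀ y', y')`, which are orthogonal. Small balls for `p₁`: if
`‖x‖ ≥ c ‖w‖` then some `|x_j| ≥ c'‖w‖`; `‖p₁ w‖ ≤ δ` gives `|y_i - ∑_j A_ij x_j| ≤ δ` for every
row `i`; for fixed other entries the entry `A_ij` is in an interval of length `2δ/|x_j|`; the rows
are independent, total `≤ C (δ/‖w‖)^m`. If `‖x‖ < c‖w‖` (`c` small) then
`‖y - A x‖ ≥ ‖w‖/2`, so `δ ≥ ‖w‖/2` and the total mass is enough. Same for `p₂`. -/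
def S_SB2 : Prop := ∀ n m l : ℕ, n = m + l → 1 ≤ m → 1 ≤ l →
  ∃ (Ω : Type) (_ : MeasurableSpace Ω) (P : Measure Ω) (p₁ : Ω → En n →L[ℝ] En m)
    (p₂ : Ω → En n →L[ℝ] En l) (C : ℝ), P ≠ 0 ∧ SFinite P ∧ 0 < C ∧
    Measurable (fun z : Ω × En n => p₁ z.1 z.2) ∧
    Measurable (fun z : Ω × En n => p₂ z.1 z.2) ∧
    (∀ o, ∀ w w' : En n, p₁ o w = 0 → p₂ o w' = 0 → ⟪w, w'⟫ = 0) ∧
    ∀ w : En n, w ≠ 0 → ∀ δ : ℝ, 0 < δ →
      P {o | ‖p₁ o w‖ ≤ δ} ≤ ENNReal.ofReal (C * (δ / ‖w‖) ^ m) ∧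
      P {o | ‖p₂ o w‖ ≤ δ} ≤ ENNReal.ofReal (C * (δ / ‖w‖) ^ l)

end Pool.Agent.H380.AG
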