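import Pool.Agent.H380.AG.Stm
import Pool.Graph.R_seed8.W778.AG.Fin
import Pool.Graph.R_seed8.W778.AG.Lap
import Pool.Graph.R_seed8.W778.AG.Pos
import Pool.Graph.R_seed8.W342.AG.Cap2
import Pool.Graph.R_seed8.W342.AG.Pair
import Pool.Graph.R_seed8.W342.AG.Slice
import Pool.Graph.R_seed8.W376.AG.Sum
import Pool.Graph.R_seed8.W646.AG.Const
import Pool.Graph.R_seed8.W646.AG.StepB
import Pool.Graph.R_seed8.W646.AG.Scale

/-!
# Angles in sets of large dimension: assembly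
-/

set_option autoImplicit false

namespace Pool.Agent.H380.AG

open Pool.Agent.W778.AG

theorem assembly
    (t_MOM : S_MOM) (t_POLAR : S_MOM → S_POLAR) (t_PERP : S_POLAR → S_PERP) (t_CXM : S_CXM)
    (t_ISO : S_CXM → S_MOM → S_ISO) (t_LV : S_LAP → S_LV) (t_CM : S_CXM → S_MOM → S_CM)
    (t_AVG : S_PERP → S_ISO → S_LV → S_LAP → S_AVG)
    (t_CONV : S_PERP → S_ISO → S_LV → S_CM → S_MOM → S_CONV)
    (t_ORTH : S_PERP → S_LV → S_CM → S_ORTH) (t_PSD : S_CONV → S_POLAR → S_BD → S_PSD)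
    (t_MEAN : S_ORTH → S_POLAR → S_SUM → S_BD → S_MEAN)
    (t_CONC : S_AVG → S_SUM → S_BD → S_CONC)
    (t_A1 : S_AVG → S_CONC → S_SUM → S_BD → S_A1) (t_A2 : S_PSD → S_SUM → S_BD → S_A2)
    (t_A : S_A1 → S_A2 → S_A) (t_OK : S_PAR → S_OK) (t_CHAIN : S_BB → S_OK → S_CHAIN)
    (t_FROST : S_FROST)
    (t_LARGE : S_CONST → S_CHAIN → S_A → S_FROST → S_POS → S_PAR → S_LARGE)
    (t_SB : S_SB) (t_SMALL : S_SLICE → S_FROST → S_SB → S_SMALL)
    (t_SB2 : S_SB2) (t_RIGHT : S_SLICE → S_FROST → S_SB2 → S_RIGHT) :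
    ∀ α : ℝ, 0 < α → α < Real.pi →
      ∃ c : ℝ, c < 1 ∧
        ∀ n : ℕ, 2 ≤ n →
          ∀ E : Set (EuclideanSpace ℝ (Fin n)), MeasurableSet E →
            ENNReal.ofReal (c * (n : ℝ)) < dimH E →
              ∃ x ∈ E, ∃ y ∈ E, ∃ z ∈ E,
                x ≠ y ∧ y ≠ z ∧ x ≠ z ∧ EuclideanGeometry.angle x y z = α := by
  have hSUM : S_SUM := Pool.Agent.W376.AG.sum_of bd
  have hPOL := t_POLAR t_MOM
  have hPERP := t_PERP hPOL
  have hISO := t_ISO t_CXM t_MOM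
  have hLV := t_LV lap
  have hCM := t_CM t_CXM t_MOM
  have hAVG := t_AVG hPERP hISO hLV lap
  have hCONV := t_CONV hPERP hISO hLV hCM t_MOM
  have hORTH := t_ORTH hPERP hLV hCM
  have hPSD := t_PSD hCONV hPOL bd
  have hMEAN := t_MEAN hORTH hPOL hSUM bd
  have hCONC := t_CONC hAVG hSUM bd
  have hA := t_A (t_A1 hAVG hCONC hSUM bd) (t_A2 hPSD hSUM bd)
  have hBB : S_BB := Pool.Agent.W646.AG.scale (Pool.Agent.W646.AG.stepB Pool.Agent.W342.AG.pair hMEAN)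
  have hCHAIN := t_CHAIN hBB (t_OK par)
  have hLARGE := t_LARGE Pool.Agent.W646.AG.const hCHAIN hA t_FROST pos par
  exact fin_of hLARGE (t_SMALL Pool.Agent.W342.AG.slice t_FROST t_SB) (t_RIGHT Pool.Agent.W342.AG.slice t_FROST t_SB2) Pool.Agent.W342.AG.cap

end Pool.Agent.H380.AG
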